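import Pool.Agent.W95.BK.Stm

/-!
# Project BK, parts KGP, SUMK, KER
-/

open Polynomial Topology Filter MeasureTheory
open scoped ENNReal

namespace Pool.Agent.W174.BK.Ker

open Pool.Agent.W95.BK

universe u

section basics
variable {K : Type u} [NontriviallyNormedField K]

lemma lam_zero (z : BA K) : lam z 0 = z X := by
  simp [lam]

variable [IsUltrametricDist K]

/-- the filter `toward` at a point of the affine line -/
lemma toward_coe (y : BA K) : toward (y : P1B K) = comap (fun b : K => (cl b : BA K)) (𝓝 y) := by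
  unfold toward
  have h1 : (fun b : K => ((cl b : BA K) : P1B K)) =
      (fun z : BA K => (z : P1B K)) ∘ (fun b : K => (cl b : BA K)) := rfl
  rw [h1, ← comap_comap, OnePoint.nhds_coe_eq, comap_map OnePoint.coe_injective]

lemma tendsto_cl (hEV : S_EV.{u}) (y : BA K) (h : K[X]) :
    Tendsto (fun b : K => ‖h.eval b‖) (toward (y : P1B K)) (𝓝 (y h)) := by
  have h1 : Tendsto (fun b : K => (cl b : BA K)) (toward (y : P1B K)) (𝓝 y) := by
    rw [toward_coe]
    exact tendsto_comap
  exact ((hEV K h).tendsto y).comp h1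

lemma gauss_lam (hG : S_GLAM.{u}) (a b : K) (r : ℝ) (hr : 0 < r) :
    lam (gauss a r hr) b = max ‖a - b‖ r := (hG K a b).2 r hr

lemma tendsto_sub (hEV : S_EV.{u}) (hG : S_GLAM.{u}) (β : K) :
    Tendsto (fun b : K => ‖b - β‖) (toward ((gauss 0 1 one_pos : BA K) : P1B K))
      (𝓝 (max ‖β‖ 1)) := by
  have h1 := tendsto_cl hEV (gauss (0 : K) 1 one_pos) (X - C β)
  have h2 : (gauss (0 : K) 1 one_pos) (X - C β) = max ‖β‖ 1 := by
    have := gauss_lam hG 0 β 1 one_pos
    rw [zero_sub, norm_neg] at this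
    exact this
  rw [h2] at h1
  simpa using h1

end basics

theorem kgp (hEV : S_EV.{u}) (hG : S_GLAM.{u}) (hI : S_ISO.{u}) : S_KGP.{u} := by
  intro K _ _ _ z
  have T := fun β : K => tendsto_sub hEV hG β
  have T0 : Tendsto (fun b : K => ‖b‖) (toward ((gauss 0 1 one_pos : BA K) : P1B K)) (𝓝 1) := by
    have := T 0
    simpa using this
  by_cases h1 : 1 < z X
  · rw [max_eq_left h1.le]
    have h2 : ∀ᶠ b in toward ((gauss (0 : K) 1 one_pos : BA K) : P1B K), ‖b‖ < z X :=
      T0.eventually (gt_mem_nhds h1)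
    refine (tendsto_const_nhds (x := z X)).congr' ?_
    filter_upwards [h2] with b hb
    have h3 := (hI K z b 0).2.2.2
    rw [sub_zero, lam_zero] at h3
    exact (h3 hb).symm
  · push Not at h1
    rw [max_eq_right h1]
    by_cases h2 : ∃ β : K, ‖β‖ ≤ 1 ∧ lam z β < 1
    · obtain ⟨β, hβ, hl⟩ := h2
      have T1 := T β
      rw [max_eq_right hβ] at T1
      refine T1.congr' ?_
      filter_upwards [T1.eventually (lt_mem_nhds hl)] with b hb
      exact ((hI K z b β).2.2.1 hb).symm
    · push Not at h2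
      have lo : ∀ b : K, 1 ≤ lam z b := by
        intro b
        by_cases hb : ‖b‖ ≤ 1
        · exact h2 b hb
        · push Not at hb
          have h3 := (hI K z b 0).2.2.1
          rw [sub_zero, lam_zero] at h3
          rw [h3 (lt_of_le_of_lt h1 hb)]
          exact hb.le
      have up : ∀ b : K, lam z b ≤ max 1 ‖b‖ := by
        intro b
        have h3 := (hI K z b 0).1
        rw [sub_zero, lam_zero] at h3
        exact h3.trans (max_le_max h1 le_rfl)
      have T2 : Tendsto (fun b : K => max 1 ‖b‖)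
          (toward ((gauss 0 1 one_pos : BA K) : P1B K)) (𝓝 1) := by
        have := (tendsto_const_nhds (x := (1 : ℝ))).max T0
        simpa using this
      exact tendsto_of_tendsto_of_tendsto_of_le_of_le tendsto_const_nhds T2 lo up

lemma log_prod {α : Type*} (m : Multiset α) (g : α → ℝ) (hg : ∀ x ∈ m, g x ≠ 0) :
    Real.log (m.map g).prod = (m.map (fun x => Real.log (g x))).sum := by
  induction m using Multiset.induction_on with
  | empty => simp
  | cons a m ih =>
    have h1 : g a ≠ 0 := hg a (Multiset.mem_cons_self a m)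
    have h2 : ∀ x ∈ m, g x ≠ 0 := fun x hx => hg x (Multiset.mem_cons_of_mem hx)
    have h3 : (m.map g).prod ≠ 0 := by
      refine Multiset.prod_ne_zero fun hy => ?_
      obtain ⟨x, hx, hx0⟩ := Multiset.mem_map.1 hy
      exact h2 x hx hx0
    rw [Multiset.map_cons, Multiset.prod_cons, Real.log_mul h1 h3, ih h2, Multiset.map_cons,
      Multiset.sum_cons]

lemma log_gn (hV : S_VAL.{u}) (hG : S_GLAM.{u}) {K : Type u} [NontriviallyNormedField K]
    [IsUltrametricDist K] [IsAlgClosed K] (a : K) (r : ℝ) (hr : 0 < r) (F : K[X]) (hF : F ≠ 0) :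
    Real.log (gn a r F) = Real.log ‖F.leadingCoeff‖ +
      (F.roots.map (fun w => Real.log (max ‖w - a‖ r))).sum := by
  have h1 : gn a r F = ‖F.leadingCoeff‖ * (F.roots.map (fun w => max ‖w - a‖ r)).prod := by
    have h2 := hV K (gauss a r hr) F
    have h3 : (fun w => lam (gauss a r hr) w) = (fun w => max ‖w - a‖ r) := by
      funext w
      rw [gauss_lam hG, norm_sub_rev]
    rw [h3] at h2
    exact h2
  have h4 : ∀ w ∈ F.roots, max ‖w - a‖ r ≠ 0 := fun w _ => (lt_max_of_lt_right hr).ne'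
  rw [h1, Real.log_mul, log_prod _ _ h4]
  · simpa using hF
  · refine Multiset.prod_ne_zero fun hy => ?_
    obtain ⟨x, hx, hx0⟩ := Multiset.mem_map.1 hy
    exact h4 x hx hx0

theorem sumk (hV : S_VAL.{u}) (hG : S_GLAM.{u}) : S_SUMK.{u} := by
  intro K _ _ _ f b a s t hs ht
  have e1 : ((fib f b).map (ker a s t)).sum =
      ((f.P - C b * f.Q).roots.map (fun w => Real.log (max ‖w - a‖ t) -
        Real.log (max ‖w - a‖ s))).sum := by
    unfold fib
    rw [Multiset.map_add, Multiset.sum_add, Multiset.map_map, Multiset.map_replicate,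
      Multiset.sum_replicate]
    have h1 : ker a s t (OnePoint.infty : P1B K) = 0 := rfl
    rw [h1, smul_zero, add_zero]
    refine congrArg Multiset.sum (Multiset.map_congr rfl fun w _ => ?_)
    have h2 : ker a s t ((cl w : BA K) : P1B K) =
        Real.log (max (lam (cl w) a) t) - Real.log (max (lam (cl w) a) s) := rfl
    rw [Function.comp_apply, h2, (hG K w a).1]
  rw [e1]
  by_cases hF : f.P - C b * f.Q = 0
  · rw [hF]
    simp [gn]
  · rw [log_gn hV hG a t ht _ hF, log_gn hV hG a s hs _ hF, Multiset.sum_map_sub]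
    ring

lemma hk_gauss (hG : S_GLAM.{u}) {K : Type u} [NontriviallyNormedField K]
    [IsUltrametricDist K] (a : K) (r : ℝ) (hr : 0 < r) : HK (gauss a r hr) := by
  intro b hb
  have h1 := gauss_lam hG a b r hr
  rw [hb, (hG K b b).1, sub_self, norm_zero] at h1
  have h2 : 0 < max ‖a - b‖ r := lt_max_of_lt_right hr
  linarith

/-- the Gauss norm of `P - bQ` for `b` close to the Gauss point -/
lemma tendsto_gn (hG : S_GLAM.{u}) (hK : S_KGP.{u}) (hA : S_ACT.{u}) {K : Type u}
    [NontriviallyNormedField K] [IsUltrametricDist K] [IsAlgClosed K] (f : RMap K) (a : K) (t : ℝ)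
    (ht : 0 < t) :
    Tendsto (fun b : K => Real.log (gn a t (f.P - C b * f.Q)))
      (toward ((gauss 0 1 one_pos : BA K) : P1B K))
      (𝓝 (Real.log (max (gn a t f.P) (gn a t f.Q)))) := by
  obtain ⟨y, -, hy, -, hl⟩ := (hA K f).1 (gauss a t ht) (hk_gauss hG a t ht)
  have hQ : gn a t f.Q ≠ 0 := by
    intro h0
    have h1 : f.act ((gauss a t ht : BA K) : P1B K) = OnePoint.infty := by
      have h2 : ¬ (gauss a t ht f.Q ≠ 0) := by
        rw [not_not]
        exact h0
      show (if h : gauss a t ht f.Q ≠ 0 then ((push f (gauss a t ht) h : BA K) : P1B K)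
        else OnePoint.infty) = OnePoint.infty
      rw [dif_neg h2]
    rw [h1] at hy
    exact OnePoint.infty_ne_coe y hy
  have hQ' : 0 < gn a t f.Q := lt_of_le_of_ne ((gauss a t ht).nonneg' f.Q) (Ne.symm hQ)
  have hl' : ∀ b : K, gn a t (f.P - C b * f.Q) = lam y b * gn a t f.Q := by
    intro b
    have h1 : lam y b = gn a t (f.P - C b * f.Q) / gn a t f.Q := hl b
    rw [h1, div_mul_cancel₀ _ hQ]
  have hX : y X = gn a t f.P / gn a t f.Q := by
    have h1 := hl' 0
    rw [lam_zero, C_0, zero_mul, sub_zero] at h1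
    rw [h1, mul_div_cancel_right₀ _ hQ]
  have T1 : Tendsto (fun b : K => gn a t (f.P - C b * f.Q))
      (toward ((gauss 0 1 one_pos : BA K) : P1B K)) (𝓝 (max (gn a t f.P) (gn a t f.Q))) := by
    have T2 := (hK K y).mul_const (gn a t f.Q)
    have h2 : max (y X) 1 * gn a t f.Q = max (gn a t f.P) (gn a t f.Q) := by
      rw [max_mul_of_nonneg _ _ hQ'.le, hX, one_mul, div_mul_cancel₀ _ hQ]
    rw [h2] at T2
    exact T2.congr fun b => (hl' b).symm
  refine (Real.continuousAt_log ?_).tendsto.comp T1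
  exact (lt_max_of_lt_right hQ').ne'

theorem ker (hG : S_GLAM.{u}) (hD : S_DENSE.{u}) : S_T1.{u} → S_KGP.{u} → S_SUMK.{u} →
    S_KERC.{u} → S_GREEN.{u} → S_ACT.{u} → S_ITER.{u} → S_KER.{u} := by
  intro hT hK hS hC hGr hA hIt K _ _ _ R hd ρ hρ hE a s t hs ht
  have hx : HK (gauss (0 : K) 1 one_pos) := hk_gauss hG 0 1 one_pos
  have E1 := hE (gauss (0 : K) 1 one_pos) hx ⟨Pool.Agent.W95.BK.ker a s t, hC K a s t hs ht⟩
  obtain ⟨B, hB, hgr⟩ := hGr K R hd
  have hd1 : (1 : ℝ) < R.d := by exact_mod_cast (by omega : 1 < R.d)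
  have hd0 : (0 : ℝ) < R.d := by linarith
  have E2 : ∀ n : ℕ, pushFun (R.iter n) (Pool.Agent.W95.BK.ker a s t)
      ((gauss 0 1 one_pos : BA K) : P1B K) =
      Real.log (max (gn a t (R.iter n).P) (gn a t (R.iter n).Q)) -
      Real.log (max (gn a s (R.iter n).P) (gn a s (R.iter n).Q)) := by
    intro n
    have T1 := hT K (R.iter n) (gauss (0 : K) 1 one_pos) hx
      ⟨Pool.Agent.W95.BK.ker a s t, hC K a s t hs ht⟩
    have T2 := (tendsto_gn hG hK hA (R.iter n) a t ht).sub
      (tendsto_gn hG hK hA (R.iter n) a s hs)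
    have := hD K ((gauss 0 1 one_pos : BA K) : P1B K)
    refine tendsto_nhds_unique T1 (T2.congr fun b => ?_)
    exact (hS K (R.iter n) b a s t hs ht).symm
  have E3 : ∀ (r : ℝ) (hr : 0 < r), Tendsto (fun n : ℕ =>
      Real.log (max (gn a r (R.iter n).P) (gn a r (R.iter n).Q)) / (R.d : ℝ) ^ n) atTop
      (𝓝 (gr R (gauss a r hr))) := by
    intro r hr
    have h1 := hgr (gauss a r hr)
    have h2 : Tendsto (fun n : ℕ => B / (R.d : ℝ) ^ n) atTop (𝓝 0) := by
      have := (tendsto_pow_atTop_nhds_zero_of_lt_one (r := ((R.d : ℝ))⁻¹) (by positivity)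
        (inv_lt_one_of_one_lt₀ hd1)).const_mul B
      rw [mul_zero] at this
      refine this.congr fun n => ?_
      rw [inv_pow, div_eq_mul_inv]
    rw [tendsto_iff_norm_sub_tendsto_zero]
    refine squeeze_zero (fun n => norm_nonneg _) (fun n => ?_) h2
    rw [Real.norm_eq_abs]
    exact (h1.2 n).2
  have E4 : Tendsto (fun n : ℕ => pushFun (R.iter n) (Pool.Agent.W95.BK.ker a s t)
      ((gauss 0 1 one_pos : BA K) : P1B K) / (R.d : ℝ) ^ n) atTop
      (𝓝 (gr R (gauss a t ht) - gr R (gauss a s hs))) := by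
    refine ((E3 t ht).sub (E3 s hs)).congr fun n => ?_
    rw [E2 n, sub_div]
  exact tendsto_nhds_unique E1 E4

end Pool.Agent.W174.BK.Ker
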